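import Pool.Agent.Helper44.CM.StmtsB5

/-!
# Project MM, block B5: row LSTEP (propagation of linear solvability)
-/

open MeasureTheory Filter Topology

namespace CM

namespace LStep

variable {n : ℕ}

lemma pd_comp_neg (i : Fin n) (f : E n → ℝ) (x : E n) :
    pd i (fun y => f (-y)) x = - pd i f (-x) := by
  unfold pd
  have h := (ContinuousLinearEquiv.neg ℝ (M := E n)).comp_right_fderiv (f := f) (x := x)
  have h2 : (f ∘ (ContinuousLinearEquiv.neg ℝ (M := E n))) = fun y => f (-y) := by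
    funext y
    simp
  rw [h2] at h
  rw [h]
  simp

lemma pd_of_even {f : E n → ℝ} (hf : IsEv f) (i : Fin n) (x : E n) :
    pd i f (-x) = - pd i f x := by
  have h : (fun y => f (-y)) = f := funext hf
  have h2 := pd_comp_neg i f x
  rw [h] at h2
  linarith

lemma pd_of_odd {f : E n → ℝ} (hf : ∀ x, f (-x) = - f x) (i : Fin n) (x : E n) :
    pd i f (-x) = pd i f x := by
  have h : (fun y => f (-y)) = fun y => - f y := funext hf
  have h2 := pd_comp_neg i f x
  rw [h] at h2
  have h3 : pd i (fun y => - f y) x = - pd i f x := by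
    unfold pd
    rw [fderiv_fun_neg]
    simp
  linarith

lemma hess_of_even {f : E n → ℝ} (hf : IsEv f) (x : E n) : hess f (-x) = hess f x := by
  ext i j
  simp only [hess, Matrix.of_apply]
  exact pd_of_odd (fun y => pd_of_even hf j y) i x

lemma tau_of_even {f : E n → ℝ} (hf : IsEv f) (x : E n) : tau f (-x) = tau f x := by
  unfold tau
  rw [hess_of_even hf]

lemma pd_sub {f g : E n → ℝ} (hf : Differentiable ℝ f) (hg : Differentiable ℝ g) (i : Fin n) :
    pd i (fun x => f x - g x) = fun x => pd i f x - pd i g x := by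
  funext x
  unfold pd
  rw [fderiv_fun_sub (hf x) (hg x)]
  simp

lemma contDiff_pd {f : E n → ℝ} {k : ℕ} (hf : ContDiff ℝ (k + 1 : ℕ) f) (i : Fin n) :
    ContDiff ℝ k (pd i f) := by
  unfold pd
  have h := hf.fderiv_right (m := k) (by norm_cast)
  exact h.clm_apply contDiff_const

lemma hess_sub {f g : E n → ℝ} (hf : ContDiff ℝ 2 f) (hg : ContDiff ℝ 2 g) (i j : Fin n) :
    pd i (pd j (fun x => f x - g x)) = fun x => pd i (pd j f) x - pd i (pd j g) x := by
  have hf1 : ContDiff ℝ (1 + 1 : ℕ) f := by exact_mod_cast hf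
  have hg1 : ContDiff ℝ (1 + 1 : ℕ) g := by exact_mod_cast hg
  rw [pd_sub (hf.differentiable (by norm_num)) (hg.differentiable (by norm_num)) j]
  exact pd_sub ((contDiff_pd hf1 j).differentiable (by norm_num))
    ((contDiff_pd hg1 j).differentiable (by norm_num)) i

lemma hasSum_tr2 (A : Mt n) {u : ℕ → E n → ℝ} {v : E n → ℝ} {x : E n}
    (h : ∀ i j, HasSum (fun m => pd i (pd j (u m)) x) (pd i (pd j v) x)) :
    HasSum (fun m => tr2 A (hess (u m) x)) (tr2 A (hess v x)) := by
  unfold tr2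
  refine hasSum_sum fun i _ => hasSum_sum fun j _ => ?_
  exact (h i j).mul_left (A i j)

end LStep

open LStep in
theorem st_LSTEP (hAPL : ST_APL) (hSUM : ST_SUMLIM) (hINVD : ST_HBINVD) (hALG : ST_HBALG)
    (hHBS : ST_HBSUM) : ST_LSTEP := by
  intro n c K hc
  obtain ⟨C, hC⟩ := hAPL n c K hc
  obtain ⟨D, hD⟩ := hINVD n 3 c K hc
  obtain ⟨hnn, -, hmono, -, -, hmul, -, -, -, -⟩ := hALG n
  set Q : ℝ := (n : ℝ) * ((n : ℝ) * (2 ^ (3 + 1) * |D| * |C|)) with hQ
  have hQ0 : 0 ≤ Q := by positivity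
  refine ⟨1 / (2 * Q + 1), by positivity, ?_⟩
  set ε : ℝ := 1 / (2 * Q + 1) with hε
  have hεpos : 0 < ε := by positivity
  have hQε : Q * ε ≤ 1 / 2 := by
    rw [hε, mul_one_div, div_le_div_iff₀ (by positivity) (by norm_num)]
    linarith
  intro V V' hV hV' hP hP' hd hL r N hr hrN
  have hN : 0 ≤ N := hnn N _ (hrN.2 [] (by simp))
  -- the solution operator at `V`
  have hex : ∀ r : E n → ℝ, ∃ u : E n → ℝ, ∀ N : ℝ, IsEv r → HB 3 N r →
      (IsEv u ∧ H2 3 (|C| * N) u ∧ |u 0| ≤ |C| * N ∧ ∀ x, AK (tau V) 1 u x = r x) := by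
    intro r
    by_cases h : ∃ N, IsEv r ∧ HB 3 N r
    · obtain ⟨N0, h1, h2⟩ := h
      obtain ⟨u, M, hu, hM, hEq⟩ := hL r N0 h1 h2
      refine ⟨u, fun N _ hN => ?_⟩
      have hN0 : 0 ≤ N := hnn N _ (hN.2 [] (by simp))
      obtain ⟨h3, h4⟩ := hC V hV hP u r M N hu hM hEq hN
      have hle : C * N ≤ |C| * N := mul_le_mul_of_nonneg_right (le_abs_self C) hN0
      refine ⟨hu, ⟨h3.1, fun i j => hmono 3 3 _ _ _ le_rfl hle (h3.2 i j)⟩, h4.trans hle, hEq⟩
    · refine ⟨0, fun N h1 h2 => absurd ⟨N, h1, h2⟩ h⟩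
  choose sol hsol using hex
  -- the iteration
  let R : ℕ → E n → ℝ := fun m => Nat.rec r
    (fun _ f => fun x => tr2 (tau V' x - tau V x) (hess (sol f) x)) m
  have hR0 : R 0 = r := rfl
  have hRs : ∀ m, R (m + 1) = fun x => tr2 (tau V' x - tau V x) (hess (sol (R m)) x) :=
    fun m => rfl
  have hdiff : ∀ i j, HB 3 (D * ε) (fun x => tau V' x i j - tau V x i j) := by
    refine hD (hess V') (hess V) ε hP'.lo hP.lo (fun i j => ?_) (fun i j => ?_) (fun i j => ?_)
    · exact hP'.bd.2 i j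
    · exact hP.bd.2 i j
    · have h := hd.2 i j
      have h5 : ContDiff ℝ 2 V' := hP'.bd.1.of_le (by norm_num)
      have h6 : ContDiff ℝ 2 V := hP.bd.1.of_le (by norm_num)
      rw [hess_sub h5 h6 i j] at h
      exact h
  have hstep : ∀ (f : E n → ℝ) (a : ℝ), IsEv f → HB 3 a f →
      IsEv (fun x => tr2 (tau V' x - tau V x) (hess (sol f) x)) ∧
      HB 3 (a / 2) (fun x => tr2 (tau V' x - tau V x) (hess (sol f) x)) := by
    intro f a hf ha
    have ha0 : 0 ≤ a := hnn a _ (ha.2 [] (by simp))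
    obtain ⟨h1, h2, h3, h4⟩ := hsol f a hf ha
    refine ⟨fun x => ?_, ?_⟩
    · simp only [tau_of_even hV, tau_of_even hV', hess_of_even h1]
    · have hij : ∀ i j, HB 3 (2 ^ (3 + 1) * (|D| * ε) * (|C| * a))
          (fun x => (tau V' x i j - tau V x i j) * pd i (pd j (sol f)) x) := by
        intro i j
        refine hmul 3 _ _ _ _ ?_ (h2.2 i j)
        exact hmono 3 3 _ _ _ le_rfl
          (mul_le_mul_of_nonneg_right (le_abs_self D) hεpos.le) (hdiff i j)
      have hi : ∀ i, HB 3 (n * (2 ^ (3 + 1) * (|D| * ε) * (|C| * a)))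
          (fun x => ∑ j, (tau V' x i j - tau V x i j) * pd i (pd j (sol f)) x) :=
        fun i => hHBS n 3 n _ _ (hij i)
      have hall : HB 3 (n * (n * (2 ^ (3 + 1) * (|D| * ε) * (|C| * a))))
          (fun x => ∑ i, ∑ j, (tau V' x i j - tau V x i j) * pd i (pd j (sol f)) x) :=
        hHBS n 3 n _ _ hi
      refine hmono 3 3 _ _ _ le_rfl ?_ hall
      have : (n : ℝ) * (n * (2 ^ (3 + 1) * (|D| * ε) * (|C| * a))) = (Q * ε) * a := by
        rw [hQ]; ring
      rw [this]
      calc Q * ε * a ≤ 1 / 2 * a := mul_le_mul_of_nonneg_right hQε ha0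
        _ = a / 2 := by ring
  have hRm : ∀ m, IsEv (R m) ∧ HB 3 (N * (1 / 2) ^ m) (R m) := by
    intro m
    induction m with
    | zero => simpa [hR0] using ⟨hr, hrN⟩
    | succ m ih =>
      obtain ⟨h1, h2⟩ := hstep (R m) _ ih.1 ih.2
      refine ⟨h1, ?_⟩
      have : N * (1 / 2) ^ (m + 1) = N * (1 / 2) ^ m / 2 := by ring
      rw [this]
      exact h2
  have hum := fun m => hsol (R m) _ (hRm m).1 (hRm m).2
  obtain ⟨v, hv1, hv2, hv3, hv4, hv5⟩ := hSUM n (fun m => sol (R m)) (|C| * N)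
    (fun m => (hum m).1) (fun m => by
      have h := (hum m).2.1
      rwa [← mul_assoc] at h) (fun m => by
      have h := (hum m).2.2.1
      rwa [← mul_assoc] at h)
  refine ⟨v, 2 * (|C| * N), hv1, hv2, fun x => ?_⟩
  -- sum of the equations
  have hs1 : HasSum (fun m => AK (tau V') 1 (sol (R m)) x) (AK (tau V') 1 v x) := by
    unfold AK LL
    have hA := hasSum_tr2 (tau V' x) (hv5 x)
    exact ((hA.sub (hv4 x)).neg).sub ((hv3 x).mul_left 1)
  have hbd : ∀ m, |R m x| ≤ N * (1 / 2) ^ m := fun m => ((hRm m).2.2 [] (by simp)).1 x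
  have hsumm : Summable (fun m => R m x) := by
    refine Summable.of_norm_bounded (g := fun m => N * (1 / 2 : ℝ) ^ m) ?_ hbd
    exact (summable_geometric_of_lt_one (by norm_num) (by norm_num)).mul_left N
  have hs2 : HasSum (fun m => R m x) (∑' m, R m x) := hsumm.hasSum
  have hs3 : HasSum (fun m => R (m + 1) x) ((∑' m, R m x) - R 0 x) := by
    have := (hasSum_nat_add_iff' (f := fun m => R m x) 1).mpr hs2
    simpa using this
  have hs4 : HasSum (fun m => R m x - R (m + 1) x) (R 0 x) := by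
    have := hs2.sub hs3
    simpa using this
  have heq : (fun m => AK (tau V') 1 (sol (R m)) x) = fun m => R m x - R (m + 1) x := by
    funext m
    have h := (hum m).2.2.2 x
    rw [hRs m, ← h]
    simp only [AK, LL, tr2, Matrix.sub_apply, sub_mul, Finset.sum_sub_distrib]
    ring
  rw [heq] at hs1
  have := hs1.unique hs4
  rw [this, hR0]

end CM
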